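import Pool.Agent.Helper23.EC.DGoalsA

/-!
# MP_ecc237_nt, Part D, packet B1
-/

set_option autoImplicit false

namespace Pool.Agent.Helper45.EC.D_B1

open EC237

theorem two_sided {n m u v y0 c C : ℝ} (hy : 0 < y0) (hu : 3 / 4 * y0 ≤ u) (hu2 : u ≤ 5 / 4 * y0)
    (hv : v ^ 2 ≤ (y0 / 4) ^ 2) (hc0 : 0 ≤ c) (hc1 : c ≤ 1 / 2) (hc2 : c ≤ y0 / 2)
    (hC : C = 2 + 2 * y0) :
    c * Real.sqrt (n ^ 2 + m ^ 2) ≤ Real.sqrt ((n - m * v) ^ 2 + (m * u) ^ 2) ∧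
      Real.sqrt ((n - m * v) ^ 2 + (m * u) ^ 2) ≤ C * Real.sqrt (n ^ 2 + m ^ 2) := by
  have hm : 0 ≤ m ^ 2 := sq_nonneg m
  have hn : 0 ≤ n ^ 2 := sq_nonneg n
  have hC0 : 0 ≤ C := by rw [hC]; positivity
  have hu2' : u ^ 2 ≤ (5 / 4 * y0) ^ 2 := by
    have : 0 ≤ u := by nlinarith
    exact pow_le_pow_left₀ this hu2 2
  have hu1' : (3 / 4 * y0) ^ 2 ≤ u ^ 2 := pow_le_pow_left₀ (by positivity) hu 2
  have hmv : m ^ 2 * v ^ 2 ≤ m ^ 2 * (y0 / 4) ^ 2 := mul_le_mul_of_nonneg_left hv hm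
  have hmu2 : m ^ 2 * u ^ 2 ≤ m ^ 2 * (5 / 4 * y0) ^ 2 := mul_le_mul_of_nonneg_left hu2' hm
  have hmu1 : m ^ 2 * (3 / 4 * y0) ^ 2 ≤ m ^ 2 * u ^ 2 := mul_le_mul_of_nonneg_left hu1' hm
  have hmy : 0 ≤ m ^ 2 * y0 ^ 2 := by positivity
  constructor
  · have e : c * Real.sqrt (n ^ 2 + m ^ 2) = Real.sqrt (c ^ 2 * (n ^ 2 + m ^ 2)) := by
      rw [Real.sqrt_mul (sq_nonneg c), Real.sqrt_sq hc0]
    rw [e]
    refine Real.sqrt_le_sqrt ?_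
    have h1 : c ^ 2 ≤ 1 / 2 := by nlinarith
    have h2 : c ^ 2 ≤ y0 ^ 2 / 2 := by nlinarith
    have h3 : c ^ 2 * n ^ 2 ≤ 1 / 2 * n ^ 2 := mul_le_mul_of_nonneg_right h1 hn
    have h4 : c ^ 2 * m ^ 2 ≤ y0 ^ 2 / 2 * m ^ 2 := mul_le_mul_of_nonneg_right h2 hm
    have h5 : n ^ 2 / 2 - m ^ 2 * v ^ 2 ≤ (n - m * v) ^ 2 := by
      nlinarith [sq_nonneg (n - 2 * (m * v))]
    nlinarith
  · have e : C * Real.sqrt (n ^ 2 + m ^ 2) = Real.sqrt (C ^ 2 * (n ^ 2 + m ^ 2)) := by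
      rw [Real.sqrt_mul (sq_nonneg C), Real.sqrt_sq hC0]
    rw [e]
    refine Real.sqrt_le_sqrt ?_
    have h1 : (n - m * v) ^ 2 ≤ 2 * n ^ 2 + 2 * (m ^ 2 * v ^ 2) := by
      nlinarith [sq_nonneg (n + m * v)]
    have h2 : C ^ 2 * (n ^ 2 + m ^ 2) = 4 * n ^ 2 + 4 * m ^ 2 + 8 * y0 * (n ^ 2 + m ^ 2) +
        4 * y0 ^ 2 * n ^ 2 + 4 * (m ^ 2 * y0 ^ 2) := by
      rw [hC]
      ring
    have h3 : 0 ≤ 8 * y0 * (n ^ 2 + m ^ 2) := by positivity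
    have h4 : 0 ≤ 4 * y0 ^ 2 * n ^ 2 := by positivity
    rw [h2]
    nlinarith

theorem thm : EC237.B1 := by
  intro y0 hy
  refine ⟨min (1 / 2) (y0 / 2), 2 + 2 * y0, lt_min (by norm_num) (by positivity), by positivity,
    fun w hw => ?_⟩
  have hw1 : ‖w - (y0 : ℂ)‖ < y0 / 4 := by
    have := hw
    unfold Bd at this
    rwa [mem_ball_iff_norm] at this
  have hre : |w.re - y0| < y0 / 4 := by
    have h1 := Complex.abs_re_le_norm (w - (y0 : ℂ))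
    rw [Complex.sub_re, Complex.ofReal_re] at h1
    exact lt_of_le_of_lt h1 hw1
  have him : |w.im| < y0 / 4 := by
    have h1 := Complex.abs_im_le_norm (w - (y0 : ℂ))
    rw [Complex.sub_im, Complex.ofReal_im, sub_zero] at h1
    exact lt_of_le_of_lt h1 hw1
  rw [abs_lt] at hre
  have hu : 3 / 4 * y0 ≤ w.re := by linarith
  have hu2 : w.re ≤ 5 / 4 * y0 := by linarith
  have hv : w.im ^ 2 ≤ (y0 / 4) ^ 2 := by
    rw [← sq_abs w.im]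
    exact pow_le_pow_left₀ (abs_nonneg _) him.le 2
  refine ⟨by linarith, ?_, fun k => ?_⟩
  · have h1 : ‖w‖ ≤ ‖w - (y0 : ℂ)‖ + ‖(y0 : ℂ)‖ := by
      have := norm_add_le (w - (y0 : ℂ)) (y0 : ℂ)
      rwa [sub_add_cancel] at this
    have h2 : ‖(y0 : ℂ)‖ = y0 := by
      rw [Complex.norm_real, Real.norm_of_nonneg hy.le]
    linarith
  · have hA : ‖KA w k‖ = Real.sqrt (((k.1 : ℝ) - (k.2 : ℝ) * w.im) ^ 2 + ((k.2 : ℝ) * w.re) ^ 2) := by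
      rw [Complex.norm_eq_sqrt_sq_add_sq]
      congr 2
      · unfold KA
        simp
        ring
      · unfold KA
        simp
    have hB : ‖KB w k‖ =
        Real.sqrt (((k.1 : ℝ) - (k.2 : ℝ) * (-w.im)) ^ 2 + ((k.2 : ℝ) * w.re) ^ 2) := by
      rw [Complex.norm_eq_sqrt_sq_add_sq]
      congr 1
      unfold KB
      simp
    have h1 := two_sided (n := (k.1 : ℝ)) (m := (k.2 : ℝ)) hy hu hu2 hv
      (le_min (by norm_num) (by positivity) : (0:ℝ) ≤ min (1 / 2) (y0 / 2)) (min_le_left _ _)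
      (min_le_right _ _) rfl
    have h2 := two_sided (n := (k.1 : ℝ)) (m := (k.2 : ℝ)) (v := -w.im) hy hu hu2
      (by rwa [neg_sq])
      (le_min (by norm_num) (by positivity) : (0:ℝ) ≤ min (1 / 2) (y0 / 2)) (min_le_left _ _)
      (min_le_right _ _) rfl
    rw [hA, hB]
    unfold rk
    exact ⟨h1.1, h1.2, h2.1, h2.2⟩

end Pool.Agent.Helper45.EC.D_B1
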