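import Pool.Agent.Helper23.EC.DGoalsM

/-!
# MP_ecc237_nt, Part D, packet MVC
-/

set_option autoImplicit false

namespace Pool.Agent.Helper45.EC.D_MVC

open EC237

theorem hasSum_zero {α : Type} {f : α → ℂ} (hf : Summable f) (e : α ≃ α)
    (h : ∀ m, f (e m) = -f m) : HasSum f 0 := by
  obtain ⟨s, hs⟩ := hf
  have h1 : HasSum (f ∘ e) s := (Equiv.hasSum_iff e).2 hs
  have h2 : f ∘ e = fun m => -f m := funext h
  rw [h2] at h1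
  have h3 : s = -s := h1.unique hs.neg
  have h4 : s = 0 := by
    have : (2:ℂ) * s = 0 := by linear_combination h3
    rcases mul_eq_zero.1 this with h5 | h5
    · norm_num at h5
    · exact h5
  rwa [h4] at hs

/-- exchange of `m2` and `m3` -/
def e23 : ℤ × ℤ × ℤ ≃ ℤ × ℤ × ℤ where
  toFun m := (m.1, m.2.2, m.2.1)
  invFun m := (m.1, m.2.2, m.2.1)
  left_inv _ := rfl
  right_inv _ := rfl

/-- exchange of `m1` and `m4` -/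
def e14 : ℤ × ℤ × ℤ ≃ ℤ × ℤ × ℤ where
  toFun m := (-(m.1 + m.2.1 + m.2.2), m.2.1, m.2.2)
  invFun m := (-(m.1 + m.2.1 + m.2.2), m.2.1, m.2.2)
  left_inv m := by
    refine Prod.ext ?_ rfl
    show -(-(m.1 + m.2.1 + m.2.2) + m.2.1 + m.2.2) = m.1
    ring
  right_inv m := by
    refine Prod.ext ?_ rfl
    show -(-(m.1 + m.2.1 + m.2.2) + m.2.1 + m.2.2) = m.1
    ring

/-- rotation of the legs -/
def rot : ℤ × ℤ × ℤ ≃ ℤ × ℤ × ℤ where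
  toFun m := (m.2.1, m.2.2, -(m.1 + m.2.1 + m.2.2))
  invFun m := (-(m.1 + m.2.1 + m.2.2), m.1, m.2.1)
  left_inv m := by
    refine Prod.ext ?_ rfl
    show -(m.2.1 + m.2.2 + -(m.1 + m.2.1 + m.2.2)) = m.1
    ring
  right_inv m := by
    refine Prod.ext rfl (Prod.ext rfl ?_)
    show -(-(m.1 + m.2.1 + m.2.2) + m.1 + m.2.1) = m.2.2
    ring

theorem thm (_hN3 : EC237.N3) (hN4 : EC237.N4) (hN5 : EC237.N5) (hM3 : EC237.M3)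
    (hM4 : EC237.M4) : EC237.MVC := by
  intro y hy
  have a1 : |(-1:ℤ)| ≤ 1 := by norm_num
  have a2 : |(0:ℤ)| ≤ 1 := by norm_num
  have a3 : |(1:ℤ)| ≤ 1 := by norm_num
  have a4 : |(-1:ℤ) + 0| ≤ 1 := by norm_num
  have a5 : |(0:ℤ) + 1| ≤ 1 := by norm_num
  have a6 : ((5:ℤ) + 5 + 1 + 1) % 3 = 0 := by norm_num
  obtain ⟨-, s2⟩ := hM3 y hy 5 5 1 1 (-1) 0 0 1 a1 a2 a2 a3 a4 a6
  obtain ⟨s1, s3, -, s4⟩ := hM4 y hy 5 5 1 1 (-1) 0 0 1 a1 a2 a2 a3 a4 a5 a6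
  have hm : ∀ m : ℤ × ℤ × ℤ, -(m.2.1 + m.2.2 + -(m.1 + m.2.1 + m.2.2)) = m.1 := fun m => by ring
  -- summability of the four terms
  have t1 : Summable (fun m => fL y (lB2 m) (lB3 m) 0 * hL y (lB1 m) 2) := by
    refine ((Equiv.summable_iff rot).2 s1).congr fun m => ?_
    show fL y (5, m.2.1, -1) (5, m.2.2, 0) 0 *
      hL y (1, -(m.2.1 + m.2.2 + -(m.1 + m.2.1 + m.2.2)), 1) 2 = _
    rw [hm]
    rfl
  have t2 : Summable (fun m => fL y (lB2 m) (lB3 m) 2 * (hL y (lB4 m) 0 - hL y (lB1 m) 0)) := by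
    refine ((Equiv.summable_iff rot).2 s2).congr fun m => ?_
    show fL y (5, m.2.1, -1) (5, m.2.2, 0) 2 * (hL y (1, -(m.1 + m.2.1 + m.2.2), 0) 0 -
      hL y (1, -(m.2.1 + m.2.2 + -(m.1 + m.2.1 + m.2.2)), 1) 0) = _
    rw [hm]
    rfl
  have t3 : Summable (fun m => fL y (lB4 m) (lB1 m) 0 * hL y (lB2 m) 2) := by
    refine ((Equiv.summable_iff rot).2 s3).congr fun m => ?_
    show fL y (1, -(m.1 + m.2.1 + m.2.2), 0)
      (1, -(m.2.1 + m.2.2 + -(m.1 + m.2.1 + m.2.2)), 1) 0 * hL y (5, m.2.1, -1) 2 = _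
    rw [hm]
    rfl
  have t4 : Summable (fun m => fL y (lB4 m) (lB1 m) 2 * (hL y (lB2 m) 0 - hL y (lB3 m) 0)) := by
    refine ((Equiv.summable_iff rot).2 s4).congr fun m => ?_
    show fL y (1, -(m.1 + m.2.1 + m.2.2), 0)
      (1, -(m.2.1 + m.2.2 + -(m.1 + m.2.1 + m.2.2)), 1) 2 *
      (hL y (5, m.2.1, -1) 0 - hL y (5, m.2.2, 0) 0) = _
    rw [hm]
    rfl
  -- antisymmetry
  have hf0 : ∀ r m m' b b' c c' : ℤ, fS y r r m' m b b' 0 = -fS y r r m m' c c' 0 := by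
    intro r m m' b b' c c'
    rw [(hN5 y hy r r m' m b b').2.2.2.2.2.1, (hN5 y hy r r m m' c c').2.2.2.2.2.1]
    exact ((hN5 y hy r r m m' 0 0).1 0).2
  have hh0 : ∀ r m b c : ℤ, hS y r m b 0 = hS y r m c 0 := by
    intro r m b c
    rw [(hN4 y hy r m b).2.2.1, (hN4 y hy r m c).2.2.1]
  have hh2 : ∀ r m : ℤ, hS y r m 0 2 = 0 := by
    intro r m
    rw [(hN4 y hy r m 0).2.2.2.2.1]
    simp
  have z1 : HasSum (fun m => fL y (lB2 m) (lB3 m) 0 * hL y (lB1 m) 2) 0 := by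
    refine hasSum_zero t1 e23 fun m => ?_
    show fS y 5 5 m.2.2 m.2.1 (-1) 0 0 * hS y 1 m.1 1 2 =
      -(fS y 5 5 m.2.1 m.2.2 (-1) 0 0 * hS y 1 m.1 1 2)
    rw [hf0 5 m.2.1 m.2.2 (-1) 0 (-1) 0]
    ring
  have z2 : HasSum (fun m => fL y (lB2 m) (lB3 m) 2 * (hL y (lB4 m) 0 - hL y (lB1 m) 0)) 0 := by
    refine hasSum_zero t2 e14 fun m => ?_
    show fS y 5 5 m.2.1 m.2.2 (-1) 0 2 *
        (hS y 1 (-(-(m.1 + m.2.1 + m.2.2) + m.2.1 + m.2.2)) 0 0 -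
          hS y 1 (-(m.1 + m.2.1 + m.2.2)) 1 0) =
      -(fS y 5 5 m.2.1 m.2.2 (-1) 0 2 *
        (hS y 1 (-(m.1 + m.2.1 + m.2.2)) 0 0 - hS y 1 m.1 1 0))
    have e : -(-(m.1 + m.2.1 + m.2.2) + m.2.1 + m.2.2) = m.1 := by ring
    rw [e, hh0 1 m.1 1 0, hh0 1 (-(m.1 + m.2.1 + m.2.2)) 1 0]
    ring
  have z3 : HasSum (fun m => fL y (lB4 m) (lB1 m) 0 * hL y (lB2 m) 2) 0 := by
    refine hasSum_zero t3 e14 fun m => ?_
    show fS y 1 1 (-(-(m.1 + m.2.1 + m.2.2) + m.2.1 + m.2.2)) (-(m.1 + m.2.1 + m.2.2)) 0 1 0 *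
        hS y 5 m.2.1 (-1) 2 =
      -(fS y 1 1 (-(m.1 + m.2.1 + m.2.2)) m.1 0 1 0 * hS y 5 m.2.1 (-1) 2)
    have e : -(-(m.1 + m.2.1 + m.2.2) + m.2.1 + m.2.2) = m.1 := by ring
    rw [e, hf0 1 (-(m.1 + m.2.1 + m.2.2)) m.1 0 1 0 1]
    ring
  have z4 : HasSum (fun m => fL y (lB4 m) (lB1 m) 2 * (hL y (lB2 m) 0 - hL y (lB3 m) 0)) 0 := by
    refine hasSum_zero t4 e23 fun m => ?_
    show fS y 1 1 (-(m.1 + m.2.2 + m.2.1)) m.1 0 1 2 * (hS y 5 m.2.2 (-1) 0 - hS y 5 m.2.1 0 0) =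
      -(fS y 1 1 (-(m.1 + m.2.1 + m.2.2)) m.1 0 1 2 * (hS y 5 m.2.1 (-1) 0 - hS y 5 m.2.2 0 0))
    have e : -(m.1 + m.2.2 + m.2.1) = -(m.1 + m.2.1 + m.2.2) := by ring
    rw [e, hh0 5 m.2.2 (-1) 0, hh0 5 m.2.1 (-1) 0]
    ring
  have z := (((z1.neg.add z2).add z3).add z4).mul_left (1 / 3 : ℂ)
  have e0 : (1 / 3 : ℂ) * (-0 + 0 + 0 + 0) = 0 := by norm_num
  rw [e0] at z
  have hfun : (fun m : ℤ × ℤ × ℤ => VM y (lB2 m) (lB3 m) (lB4 m) (lB1 m)) =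
      fun m => 1 / 3 * (-(fL y (lB2 m) (lB3 m) 0 * hL y (lB1 m) 2) +
        fL y (lB2 m) (lB3 m) 2 * (hL y (lB4 m) 0 - hL y (lB1 m) 0) +
        fL y (lB4 m) (lB1 m) 0 * hL y (lB2 m) 2 +
        fL y (lB4 m) (lB1 m) 2 * (hL y (lB2 m) 0 - hL y (lB3 m) 0)) := by
    funext m
    have q4 : hL y (lB4 m) 2 = 0 := hh2 1 _
    have q3 : hL y (lB3 m) 2 = 0 := hh2 5 _
    unfold VM
    rw [q3, q4]
    ring
  rw [hfun]
  exact z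

end Pool.Agent.Helper45.EC.D_MVC
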