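import Pool.Agent.Helper23.EC.DGoalsN

/-!
# MP_ecc237_nt, Part D, packet N1
-/

set_option autoImplicit false

open Finset

namespace Pool.Agent.Helper45.EC.D_N1

open EC237

theorem coeff_gser (a α : ℂ) (p : ℕ) :
    PowerSeries.coeff p (gser a α) = α ^ p * a ^ (p + 1) := PowerSeries.coeff_mk _ _

theorem norm_coeff_le {a b α : ℂ} {t : ℝ} (ha : ‖a‖ ≤ t) (hb : ‖b‖ ≤ t) (ht0 : 0 ≤ t) (ht : t ≤ 1)
    (i : ℕ) : ‖PowerSeries.coeff i (gser a α * gser b α)‖ ≤ ((i:ℝ) + 1) * ‖α‖ ^ i * t ^ 2 := by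
  rw [PowerSeries.coeff_mul]
  refine (norm_sum_le _ _).trans ?_
  have h : ∀ p ∈ antidiagonal i, ‖PowerSeries.coeff p.1 (gser a α) *
      PowerSeries.coeff p.2 (gser b α)‖ ≤ ‖α‖ ^ i * t ^ 2 := by
    intro p hp
    rw [Finset.HasAntidiagonal.mem_antidiagonal] at hp
    rw [coeff_gser, coeff_gser, norm_mul, norm_mul, norm_mul, norm_pow, norm_pow, norm_pow,
      norm_pow]
    have h1 : ‖a‖ ^ (p.1 + 1) ≤ t := by
      calc ‖a‖ ^ (p.1 + 1) ≤ t ^ (p.1 + 1) := pow_le_pow_left₀ (norm_nonneg _) ha _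
        _ = t ^ p.1 * t := pow_succ _ _
        _ ≤ 1 * t := mul_le_mul_of_nonneg_right (pow_le_one₀ ht0 ht) ht0
        _ = t := one_mul t
    have h2 : ‖b‖ ^ (p.2 + 1) ≤ t := by
      calc ‖b‖ ^ (p.2 + 1) ≤ t ^ (p.2 + 1) := pow_le_pow_left₀ (norm_nonneg _) hb _
        _ = t ^ p.2 * t := pow_succ _ _
        _ ≤ 1 * t := mul_le_mul_of_nonneg_right (pow_le_one₀ ht0 ht) ht0
        _ = t := one_mul t
    have h3 : ‖α‖ ^ p.1 * ‖a‖ ^ (p.1 + 1) * (‖α‖ ^ p.2 * ‖b‖ ^ (p.2 + 1)) =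
        ‖α‖ ^ i * (‖a‖ ^ (p.1 + 1) * ‖b‖ ^ (p.2 + 1)) := by
      rw [← hp, pow_add]
      ring
    rw [h3]
    refine mul_le_mul_of_nonneg_left ?_ (by positivity)
    calc ‖a‖ ^ (p.1 + 1) * ‖b‖ ^ (p.2 + 1) ≤ t * t :=
          mul_le_mul h1 h2 (by positivity) ht0
      _ = t ^ 2 := by ring
  refine (sum_le_sum h).trans ?_
  rw [sum_const, Nat.card_antidiagonal, nsmul_eq_mul]
  push_cast
  rw [← mul_assoc]

theorem summable_coeff {a b : ℤ → ℂ} (ha : ∀ n, n ≠ 0 → ‖a n‖ ≤ 1 / |(n:ℝ)|)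
    (hb : ∀ n, n ≠ 0 → ‖b n‖ ≤ 1 / |(n:ℝ)|) (α : ℂ) (i : ℕ) :
    Summable (fun n => PowerSeries.coeff i (gser (a n) α * gser (b n) α)) := by
  have h1 : Summable (fun n : ℤ => ((i:ℝ) + 1) * ‖α‖ ^ i * (1 / (n:ℝ) ^ 2)) :=
    (Real.summable_one_div_int_pow.2 one_lt_two).mul_left _
  refine Summable.of_norm_bounded_eventually h1 ?_
  have h2 : ∀ᶠ n : ℤ in Filter.cofinite, n ≠ 0 := by
    rw [Filter.eventually_cofinite]
    simp
  refine h2.mono fun n hn => ?_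
  have hn1 : (1:ℝ) ≤ |(n:ℝ)| := by
    have : (1:ℤ) ≤ |n| := Int.one_le_abs hn
    exact_mod_cast this
  have h3 := norm_coeff_le (α := α) (ha n hn) (hb n hn) (by positivity)
    ((div_le_one (by linarith)).2 hn1) i
  rwa [div_pow, one_pow, sq_abs] at h3

theorem norm_inv_le {z : ℂ} {n : ℤ} (hn : n ≠ 0) (h : z.re = (n:ℝ)) : ‖z⁻¹‖ ≤ 1 / |(n:ℝ)| := by
  rw [norm_inv, ← one_div]
  have hn1 : 0 < |(n:ℝ)| := by
    rw [abs_pos]
    exact_mod_cast hn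
  refine one_div_le_one_div_of_le hn1 ?_
  rw [← h]
  exact Complex.abs_re_le_norm z

theorem thm (_hA1 : EC237.A1) : EC237.N1 := by
  intro y _ r m al i
  have hA : ∀ n : ℤ, n ≠ 0 → ‖(KA (y:ℂ) (n, m))⁻¹‖ ≤ 1 / |(n:ℝ)| := fun n hn => by
    refine norm_inv_le hn ?_
    unfold KA
    simp
  have hB : ∀ n : ℤ, n ≠ 0 → ‖(KB (y:ℂ) (n, m))⁻¹‖ ≤ 1 / |(n:ℝ)| := fun n hn => by
    refine norm_inv_le hn ?_
    unfold KB
    simp
  have sAB := summable_coeff hA hB (al:ℂ) i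
  have sAA := summable_coeff hA hA (al:ℂ) i
  have sBB := summable_coeff hB hB (al:ℂ) i
  have key : ∀ f : ℤ → ℂ, Summable f → Summable (fun n : ℤ => if InCl r (n, m) then f n else 0) := by
    intro f hf
    have h := hf.indicator {n : ℤ | InCl r (n, m)}
    refine h.congr fun n => ?_
    rw [Set.indicator_apply]
    rfl
  refine ⟨key _ ?_, key _ ?_, key _ ?_⟩
  · refine (sAB.mul_left (y:ℂ)).congr fun n => ?_
    unfold hh As Bs
    rw [PowerSeries.coeff_smul, smul_eq_mul]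
  · refine ((sAA.add sBB).mul_left ((y:ℂ) / 2)).congr fun n => ?_
    unfold dd As Bs
    rw [PowerSeries.coeff_smul, smul_eq_mul, map_add, sq, sq]
  · refine ((sAA.sub sBB).mul_left ((y:ℂ) / (2 * Complex.I))).congr fun n => ?_
    unfold xx As Bs
    rw [PowerSeries.coeff_smul, smul_eq_mul, map_sub, sq, sq]

end Pool.Agent.Helper45.EC.D_N1
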