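import Pool.Agent.Helper38.EC.Goals

/-!
# MP_ecc237_nt, Part I, packet G1
-/

set_option autoImplicit false

open MeasureTheory Filter Topology Set Complex

namespace Pool.Agent.Helper45.EC.I_G1

open EC237 EC237.PI

theorem fb_axis (hJ : G_JY) (b : ℕ) (hb : b ≤ 6) (η : ℝ) (hη : 0 < η) :
    I * fb b 1 (-(I * η)) = ∑ j ∈ Finset.range (b + 1),
      ((b.choose j : ℂ) * (I * (Real.pi / 2)) ^ (b - j)) *
        ((Jr η ^ (6 - j) * Yr η ^ j * η : ℝ) : ℂ) := by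
  obtain ⟨h1, h2, -⟩ := hJ.1 η hη
  unfold fb
  rw [h1, h2, zpow_one, add_pow]
  have h3 : ∀ S : ℂ, I * (S * (Jr η : ℂ) ^ (6 - b) * (-(I * (η : ℂ)))) =
      S * ((Jr η : ℂ) ^ (6 - b) * (η : ℂ)) := by
    intro S
    have := Complex.I_mul_I
    linear_combination (-(S * (Jr η : ℂ) ^ (6 - b) * (η : ℂ))) * this
  rw [h3, Finset.sum_mul]
  refine Finset.sum_congr rfl fun j hj => ?_
  have hj' : j ≤ b := Nat.lt_succ_iff.1 (Finset.mem_range.1 hj)
  have h4 : (Jr η : ℂ) ^ (6 - j) = (Jr η : ℂ) ^ (b - j) * (Jr η : ℂ) ^ (6 - b) := by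
    rw [← pow_add]
    congr 1
    omega
  push_cast
  rw [h4, mul_pow]
  ring

theorem thm (hRP : G_RP) (hFB : G_FB) (hVPC : G_VPC) (hJY : G_JY) (hAX : G_AX) : G_G1 := by
  intro b hb
  obtain ⟨C, -, hC⟩ := hFB
  obtain ⟨-, -, -, hC1⟩ := hC b hb 1 (Or.inl rfl)
  obtain ⟨-, hlim⟩ := hVPC (fb b 1) (hRP.1 b hb 1 (Or.inl rfl))
    ⟨C, fun z hz hz1 => (hC1 z hz hz1).1⟩
  have key : (I * ∫ η in Ioi (0:ℝ), fb b 1 (-(I * η))) = gb b := by
    rw [← integral_const_mul]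
    have e1 : ∫ η in Ioi (0:ℝ), I * fb b 1 (-(I * η)) =
        ∫ η in Ioi (0:ℝ), ∑ j ∈ Finset.range (b + 1),
          ((b.choose j : ℂ) * (I * (Real.pi / 2)) ^ (b - j)) *
            ((Jr η ^ (6 - j) * Yr η ^ j * η : ℝ) : ℂ) :=
      setIntegral_congr_fun measurableSet_Ioi fun η hη => fb_axis hJY b hb η hη
    rw [e1, integral_finsetSum]
    · unfold gb
      refine Finset.sum_congr rfl fun j hj => ?_
      rw [integral_const_mul]
      unfold aj
      congr 1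
      exact integral_ofReal
    · intro j hj
      have hj' : j ≤ b := Nat.lt_succ_iff.1 (Finset.mem_range.1 hj)
      exact ((hAX.2.1 j (by omega)).ofReal).const_mul _
  rw [← key]
  exact hlim

end Pool.Agent.Helper45.EC.I_G1
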